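import Pool.Agent.H39.LOB.Centre

set_option autoImplicit false

namespace Pool.Agent.Results.MP_562425_co.CentreLeaves

open Lob

/-- Let `G` be a finite tree in which every vertex is at distance at most two from the vertex `c`
(a tree of diameter at most four with centre `c`). Let `m ≥ 3` be the number of neighbours of `c`
which are not leaves, and let `L` be the number of leaves adjacent to `c`. If `m` is odd and
`L ≥ m`, or `m` is even and `L ≥ 2 m - 4`, then `G` is harmonious. -/
theorem result {V : Type} [Fintype V] (G : SimpleGraph V) (hG : G.IsTree) (c : V)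
    (hc : ∀ v, v = c ∨ G.Adj c v ∨ ∃ x, G.Adj c x ∧ G.Adj x v) (m L : ℕ)
    (hm : {x | G.Adj c x ∧ ∃ y, y ≠ c ∧ G.Adj x y}.ncard = m)
    (hL : {x | G.Adj c x ∧ ∀ y, G.Adj x y → y = c}.ncard = L)
    (h3 : 3 ≤ m) (h : (Odd m ∧ m ≤ L) ∨ (Even m ∧ 2 * m ≤ L + 4)) : Harmonious G :=
  harmonious_centre G hG c hc m L hm hL h3 h

end Pool.Agent.Results.MP_562425_co.CentreLeaves
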