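import Pool.Agent.H57.HV2.Conv

set_option autoImplicit false

namespace Pool.Agent.Results.MP_562425_co.HeavyLobster

open Lob Pool.Agent.H57.HV2

/-- Let `T` be a finite tree and `r` a vertex with two different neighbours `x`, `y`, each of which
has a neighbour other than `r`. Let `p` be a path of `T`. Suppose that every vertex of `T` has
distance at most 2 from some vertex of `p` (so `T` is a lobster), or at least that `p` contains `r`
and every vertex that is nearer to `x` than to `r` has distance at most 2 from some vertex of `p`.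
Then there is a `C` such that for all `N ≥ C` the tree obtained from `T` by adding `N` leaves at `r`
is harmonious. -/
theorem result {V : Type} [Fintype V] (T : SimpleGraph V) (hT : T.IsTree) (r x y : V)
    (hx : T.Adj r x) (hy : T.Adj r y) (hxy : x ≠ y) (hx' : ∃ z, z ≠ r ∧ T.Adj x z)
    (hy' : ∃ z, z ≠ r ∧ T.Adj y z) (a b : V) (p : T.Walk a b) (hp : p.IsPath)
    (hd : (∀ v, ∃ u ∈ p.support, T.dist v u ≤ 2) ∨
      (r ∈ p.support ∧ ∀ v, T.dist x v < T.dist r v → ∃ u ∈ p.support, T.dist v u ≤ 2)) :
    ∃ C : ℕ, ∀ N : ℕ, C ≤ N → Harmonious (addLeaves T r N) := by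
  obtain ⟨x', hxr, hxx⟩ := hx'
  obtain ⟨y', hyr, hyy⟩ := hy'
  exact harm_of_cl T hT r (lobster T hT r x y x' y' hx hy hxy hxx hxr hyy hyr a b p hp hd)

end Pool.Agent.Results.MP_562425_co.HeavyLobster
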