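import Pool.Agent.H57.HV2.Conv

set_option autoImplicit false

namespace Pool.Agent.Results.MP_562425_co.HeavyThree

open Lob Pool.Agent.H57.HV2

/-- Let `T` be a finite tree, `r` a vertex, and `s` either `r` or a neighbour of `r`. Suppose that
there are three different vertices other than `r` and `s` that are adjacent to `r` or to `s` and are
not leaves. Then there is a `C` such that for all `N ≥ C` the tree obtained from `T` by adding `N`
leaves at `r` is harmonious. -/
theorem result {V : Type} [Fintype V] (T : SimpleGraph V) (hT : T.IsTree) (r s : V)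
    (hs : s = r ∨ T.Adj r s) (x y z : V) (hxy : x ≠ y) (hxz : x ≠ z) (hyz : y ≠ z)
    (hall : ∀ v, v = x ∨ v = y ∨ v = z → v ≠ r ∧ v ≠ s ∧ (T.Adj r v ∨ T.Adj s v) ∧
      ∃ a b, a ≠ b ∧ T.Adj v a ∧ T.Adj v b) :
    ∃ C : ℕ, ∀ N : ℕ, C ≤ N → Harmonious (addLeaves T r N) :=
  harm_of_cl T hT r (three2 T hT r s hs x y z hxy hxz hyz hall)

end Pool.Agent.Results.MP_562425_co.HeavyThree
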