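import Pool.Agent.H57.HV.Fin

set_option autoImplicit false

namespace Pool.Agent.Results.MP_562425_co.HeavyVertexLeg

open Lob

/-- Let `G` be a finite tree and `r` a vertex of `G`. Suppose that `r` has a neighbour `u` which has
a neighbour `w ≠ r`, and all the neighbours of `u` other than `r` are leaves. Let `N` be the number
of the leaves adjacent to `r`, `k` the number of the other vertices (including `r`), and `h` the
number of the vertices `x ≠ r` with at least two neighbours. If `2 ^ h * k ^ 2 ≤ 8 * N` then `G` is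
harmonious. -/
theorem result {V : Type} [Fintype V] (G : SimpleGraph V) (hG : G.IsTree) (r u w : V)
    (hru : G.Adj r u) (huw : G.Adj u w) (hwr : w ≠ r)
    (hleaf : ∀ y, G.Adj u y → y ≠ r → ∀ z, G.Adj y z → z = u) (N k h : ℕ)
    (hN : {x | G.Adj r x ∧ ∀ y, G.Adj x y → y = r}.ncard = N)
    (hk : {x | ¬ (G.Adj r x ∧ ∀ y, G.Adj x y → y = r)}.ncard = k)
    (hh : {x | x ≠ r ∧ ∃ y z, y ≠ z ∧ G.Adj x y ∧ G.Adj x z}.ncard = h)
    (hq : 2 ^ h * k ^ 2 ≤ 8 * N) : Harmonious G := by
  refine Pool.Agent.H57.HV.heavy G hG r u w hru huw hwr hleaf ?_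
  have h1 : (Pool.Agent.H57.HV.lv G r).ncard = N := hN
  have h2 : ((Pool.Agent.H57.HV.lv G r)ᶜ).ncard = k := hk
  have h3 : (Pool.Agent.H57.HV.nl G r).ncard = h := hh
  rw [h1, h2, h3]
  exact hq

end Pool.Agent.Results.MP_562425_co.HeavyVertexLeg
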